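import Pool.Agent.Helper6.LPB.St

/-!
# LPB, module VSM: the densities for `y ≤ 4`
-/

set_option autoImplicit false

noncomputable section

namespace Pool.Agent.Helper97.LPB

open Finset
open Pool.Agent.Helper15.AB (StMT)
open Pool.Agent.Helper98.LM (QQ)
open Pool.Agent.Helper6.LP Pool.Agent.Helper6.LPB

private lemma root_ex (y l : ℕ) (hl : l.Prime) (h32 : 32 < l) (hy4 : y ≤ 4) :
    1 ≤ (SS 1 0 y l).card := by
  have hcop : Nat.Coprime (y + 1) l := by
    rw [Nat.coprime_comm]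
    refine (Nat.Prime.coprime_iff_not_dvd hl).mpr (fun h => ?_)
    have := Nat.le_of_dvd (by omega) h
    omega
  -- an inverse
  haveI : Fact l.Prime := ⟨hl⟩
  have hne : ((y : ZMod l) + 1) ≠ 0 := by
    intro h
    have h2 : ((y + 1 : ℕ) : ZMod l) = 0 := by push_cast; exact h
    rw [ZMod.natCast_eq_zero_iff] at h2
    have := Nat.le_of_dvd (by omega) h2
    omega
  set s : ZMod l := (y : ZMod l) * ((y : ZMod l) + 1)⁻¹ with hs
  refine Finset.card_pos.mpr ⟨s.val, ?_⟩
  rw [SS, mem_filter, mem_range]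
  refine ⟨ZMod.val_lt s, ?_⟩
  rw [← ZMod.intCast_zmod_eq_zero_iff_dvd]
  have hfa : ((fa (((0 : ℕ) : ℤ) + ((1 : ℕ) : ℤ) * (s.val : ℤ)) (y : ℤ) : ℤ) : ZMod l) = 0 := by
    simp only [fa]
    push_cast
    rw [ZMod.natCast_zmod_val]
    have : s * ((y : ZMod l) + 1) = y := by
      rw [hs, mul_assoc, inv_mul_cancel₀ hne, mul_one]
    linear_combination this
  rw [ff]
  push_cast at hfa ⊢
  rw [hfa, zero_mul]

theorem hVSM (hM : StMT) : StVSM := by
  obtain ⟨C, hC, hmt⟩ := hM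
  refine ⟨Real.exp (C + 32), Real.one_le_exp (by linarith), ?_⟩
  intro w y hw hy1 hy4
  have hlogw : 0 < Real.log w := Real.log_pos (by exact_mod_cast (by omega : 1 < w))
  -- the product
  have h1 : VV 32 w 1 0 y ≤ ∏ l ∈ QQ 32 w, Real.exp (-((1 : ℝ) / l)) := by
    unfold VV
    refine Finset.prod_le_prod ?_ ?_
    · intro l hl
      have hl' := mem_filter.mp hl
      have hpos : (0 : ℝ) < l := by exact_mod_cast hl'.2.pos
      have hcard : ((SS 1 0 y l).card : ℝ) ≤ l := by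
        have : (SS 1 0 y l).card ≤ (range l).card := card_filter_le _ _
        rw [card_range] at this
        exact_mod_cast this
      have : ((SS 1 0 y l).card : ℝ) / l ≤ 1 := (div_le_one hpos).mpr hcard
      linarith
    · intro l hl
      have hl' := mem_filter.mp hl
      have hlt : 32 < l := (mem_Ioc.mp hl'.1).1
      have hpos : (0 : ℝ) < l := by exact_mod_cast hl'.2.pos
      have hc : (1 : ℝ) ≤ ((SS 1 0 y l).card : ℝ) := by exact_mod_cast root_ex y l hl'.2 hlt hy4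
      have h2 : (1 : ℝ) / l ≤ ((SS 1 0 y l).card : ℝ) / l := by gcongr
      have h3 := Real.add_one_le_exp (-((1 : ℝ) / l))
      linarith
  rw [← Real.exp_sum, sum_neg_distrib] at h1
  -- Mertens
  have h2 := hmt w (by exact_mod_cast hw)
  rw [Nat.floor_natCast] at h2
  have h3 : ∑ l ∈ (Icc 1 w).filter Nat.Prime, (1 : ℝ) / l ≤
      ∑ l ∈ QQ 32 w, (1 : ℝ) / l + 32 := by
    have hsub : (Icc 1 w).filter Nat.Prime ⊆ QQ 32 w ∪ Icc 1 32 := by
      intro l hl
      rw [mem_filter, mem_Icc] at hl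
      rw [mem_union, QQ, mem_filter, mem_Ioc, mem_Icc]
      by_cases h : 32 < l
      · left; exact ⟨⟨h, hl.1.2⟩, hl.2⟩
      · right; exact ⟨hl.1.1, by omega⟩
    have hdisj : Disjoint (QQ 32 w) (Icc 1 32) := by
      rw [Finset.disjoint_left]
      intro l hl hl'
      rw [QQ, mem_filter, mem_Ioc] at hl
      rw [mem_Icc] at hl'
      omega
    calc ∑ l ∈ (Icc 1 w).filter Nat.Prime, (1 : ℝ) / l
        ≤ ∑ l ∈ QQ 32 w ∪ Icc 1 32, (1 : ℝ) / l :=
          sum_le_sum_of_subset_of_nonneg hsub (fun _ _ _ => by positivity)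
      _ = ∑ l ∈ QQ 32 w, (1 : ℝ) / l + ∑ l ∈ Icc (1 : ℕ) 32, (1 : ℝ) / l := sum_union hdisj
      _ ≤ ∑ l ∈ QQ 32 w, (1 : ℝ) / l + ∑ l ∈ Icc (1 : ℕ) 32, (1 : ℝ) := by
          refine add_le_add le_rfl (sum_le_sum fun l hl => ?_)
          rw [mem_Icc] at hl
          have : (1 : ℝ) ≤ l := by exact_mod_cast hl.1
          exact (div_le_one (by linarith)).mpr this
      _ = _ := by simp
  have h4 : Real.log (Real.log w) - C - 32 ≤ ∑ l ∈ QQ 32 w, (1 : ℝ) / l := by
    have := (abs_le.mp h2).1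
    linarith
  calc VV 32 w 1 0 y ≤ Real.exp (-∑ l ∈ QQ 32 w, (1 : ℝ) / l) := h1
    _ ≤ Real.exp ((C + 32) - Real.log (Real.log w)) := Real.exp_le_exp.mpr (by linarith)
    _ = Real.exp (C + 32) / Real.log w := by rw [Real.exp_sub, Real.exp_log hlogw]

end Pool.Agent.Helper97.LPB
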